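import Mathlib

/-!
# Weihrauch reducibility
-/

set_option autoImplicit false

namespace Pool.Agent.Q317.WC

/-- A problem, a partial multivalued function on Baire space: `sol p` is the set of its values at
`p`. -/
structure Problem where
  sol : (ℕ → ℕ) → Set (ℕ → ℕ)

/-- The domain of a problem. -/
def Problem.dom (f : Problem) : Set (ℕ → ℕ) := {p | (f.sol p).Nonempty}

/-- The finite word of the first `m` values of `p`. -/
def pre (p : ℕ → ℕ) (m : ℕ) : List ℕ := (List.range m).map p

/-- The partial function `φ`, which reads finite words of its input and an argument `i` and gives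
the value of the output at `i`, maps the point `p` of Baire space to `q`. -/
def Computes (φ : List ℕ × ℕ →. ℕ) (p q : ℕ → ℕ) : Prop :=
  ∀ i, (∃ m, q i ∈ φ (pre p m, i)) ∧ ∀ m v, v ∈ φ (pre p m, i) → v = q i

/-- The pairing on Baire space. -/
def join (p q : ℕ → ℕ) : ℕ → ℕ := fun n => if n % 2 = 0 then p (n / 2) else q (n / 2)

/-- Weihrauch reducibility, with partial recursive functions `φ` (forwards) and `ψ` (backwards)
giving the two computable partial maps. -/
def WRed (f g : Problem) : Prop :=
  ∃ φ ψ : List ℕ × ℕ →. ℕ, Partrec φ ∧ Partrec ψ ∧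
    ∀ p ∈ f.dom, ∃ r, Computes φ p r ∧ r ∈ g.dom ∧
      ∀ q ∈ g.sol r, ∃ s, Computes ψ (join p q) s ∧ s ∈ f.sol p

end Pool.Agent.Q317.WC
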