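import Pool.Agent.Q317.WC.Defs

/-!
# Every two sequences `f n ≤ h m` have an intermediate problem
-/

set_option autoImplicit false
set_option linter.unusedSectionVars false

namespace Pool.Agent.Q317.WC

open Nat.Partrec

/-- The partial recursive function with a given index. -/
def U (a : ℕ) (x : List ℕ × ℕ) : Part ℕ := (Denumerable.ofNat Code a).eval (Encodable.encode x)

theorem exists_index {φ : List ℕ × ℕ →. ℕ} (h : Partrec φ) : ∃ a, ∀ x, U a x = φ x := by
  obtain ⟨c, hc⟩ := Code.exists_code.1 h
  refine ⟨Encodable.encode c, fun x => ?_⟩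
  unfold U
  rw [Denumerable.ofNat_encode, hc]
  simp only [Encodable.encodek, Part.coe_some, Part.bind_some]
  exact Part.map_id' (fun _ => rfl) _

theorem partrec_U : Partrec (fun x : ℕ × (List ℕ × ℕ) => U x.1 x.2) := by
  have h1 : Computable (fun x : ℕ × (List ℕ × ℕ) => Denumerable.ofNat Code x.1) :=
    (Computable.ofNat Code).comp Computable.fst
  have h2 : Computable (fun x : ℕ × (List ℕ × ℕ) => Encodable.encode x.2) :=
    Computable.encode.comp Computable.snd
  exact Code.eval_part.comp h1 h2

/-- The table for the problem `h m`. -/
def tab (m : ℕ) (L : List ℕ) (k : ℕ) : ℕ :=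
  ((Denumerable.ofNat (List ℕ) k)[m]?).getD
    ((L[(Denumerable.ofNat (List ℕ) k).length - 1]?).getD 0)

theorem comp_tab (m : ℕ) (L : List ℕ) : Computable (tab m L) := by
  apply Primrec.to_comp
  have h1 : Primrec (fun k : ℕ => Denumerable.ofNat (List ℕ) k) := Primrec.ofNat _
  have h2 : Primrec (fun k : ℕ => (Denumerable.ofNat (List ℕ) k)[m]?) :=
    Primrec.list_getElem?.comp h1 (Primrec.const m)
  have h3 : Primrec (fun k : ℕ => (Denumerable.ofNat (List ℕ) k).length - 1) :=
    Primrec.nat_sub.comp (Primrec.list_length.comp h1) (Primrec.const 1)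
  have h4 : Primrec (fun k : ℕ => L[(Denumerable.ofNat (List ℕ) k).length - 1]?) :=
    Primrec.list_getElem?.comp (Primrec.const L) h3
  have h5 : Primrec (fun k : ℕ => (L[(Denumerable.ofNat (List ℕ) k).length - 1]?).getD 0) :=
    Primrec.option_getD.comp h4 (Primrec.const 0)
  exact Primrec.option_getD.comp h2 h5

/-- The code of the reductions of `f n` to `h 0`, ..., `h n`. -/
def cod (e : ℕ → ℕ → ℕ) (n : ℕ) : ℕ := Encodable.encode ((List.range (n + 1)).map (e n))

theorem ofNat_cod (e : ℕ → ℕ → ℕ) (n : ℕ) :
    Denumerable.ofNat (List ℕ) (cod e n) = (List.range (n + 1)).map (e n) :=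
  Denumerable.ofNat_encode _

theorem tab_cod (e : ℕ → ℕ → ℕ) (n m : ℕ) :
    tab m ((List.range m).map fun i => e i m) (cod e n) = e n m := by
  unfold tab
  rw [ofNat_cod]
  by_cases h : m < n + 1
  · rw [List.getElem?_map, List.getElem?_range h]
    rfl
  · have h1 : ((List.range (n + 1)).map (e n))[m]? = Option.none := by
      rw [List.getElem?_eq_none_iff]
      simp
      omega
    rw [h1, List.length_map, List.length_range, Nat.add_sub_cancel, List.getElem?_map,
      List.getElem?_range (by omega)]
    rfl

theorem cod_inj (e : ℕ → ℕ → ℕ) {n n' : ℕ} (h : cod e n = cod e n') : n = n' := by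
  have h1 := congrArg (Denumerable.ofNat (List ℕ)) h
  rw [ofNat_cod, ofNat_cod] at h1
  have h2 := congrArg List.length h1
  simpa using h2

/-- The intermediate problem. -/
def mid (f : ℕ → Problem) (e : ℕ → ℕ → ℕ) : Problem where
  sol x := {s | ∃ n, x 0 = cod e n ∧ s ∈ (f n).sol (fun i => x (i + 1))}

/-- Deleting the first entry of the first component of a word of a pair. -/
def del (σ : List ℕ) : List ℕ :=
  (List.range (σ.length - 2)).map fun i => (σ[if i % 2 = 0 then i + 2 else i]?).getD 0

theorem comp_del : Computable del := by
  apply Primrec.to_comp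
  apply Primrec.list_map
  · exact Primrec.list_range.comp (Primrec.nat_sub.comp Primrec.list_length (Primrec.const 2))
  · have h1 : Primrec (fun p : List ℕ × ℕ => if p.2 % 2 = 0 then p.2 + 2 else p.2) := by
      apply Primrec.ite
      · exact PrimrecRel.comp Primrec.eq (Primrec.nat_mod.comp Primrec.snd (Primrec.const 2))
          (Primrec.const 0)
      · exact Primrec.nat_add.comp Primrec.snd (Primrec.const 2)
      · exact Primrec.snd
    exact Primrec.option_getD.comp (Primrec.list_getElem?.comp Primrec.fst h1) (Primrec.const 0)

theorem pre_length (p : ℕ → ℕ) (m : ℕ) : (pre p m).length = m := by simp [pre]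

theorem pre_getElem? (p : ℕ → ℕ) (m i : ℕ) : (pre p m)[i]? = if i < m then some (p i) else Option.none := by
  unfold pre
  by_cases h : i < m
  · rw [if_pos h, List.getElem?_map, List.getElem?_range h]
    rfl
  · rw [if_neg h, List.getElem?_eq_none_iff]
    simp
    omega

theorem del_pre (x q : ℕ → ℕ) (m : ℕ) :
    del (pre (join x q) m) = pre (join (fun i => x (i + 1)) q) (m - 2) := by
  unfold del
  rw [pre_length]
  conv_rhs => unfold pre
  apply List.map_congr_left
  intro i hi
  rw [List.mem_range] at hi
  by_cases h : i % 2 = 0
  · rw [if_pos h, pre_getElem?, if_pos (by omega)]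
    show join x q (i + 2) = join (fun i => x (i + 1)) q i
    unfold join
    rw [if_pos (by omega), if_pos h]
    congr 1
    omega
  · rw [if_neg h, pre_getElem?, if_pos (by omega)]
    show join x q i = join (fun i => x (i + 1)) q i
    unfold join
    rw [if_neg h, if_neg h]

theorem pre_succ (p : ℕ → ℕ) (m : ℕ) : pre p (m + 1) = p 0 :: pre (fun i => p (i + 1)) m := by
  unfold pre
  rw [List.range_succ_eq_map, List.map_cons, List.map_map]
  rfl

/-- The forward functional. -/
def fwd (A : ℕ → ℕ) : List ℕ × ℕ →. ℕ := fun x =>
  (x.1.head? : Part ℕ).bind fun k => U (A k).unpair.1 (x.1.tail, x.2)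

/-- The backward functional. -/
def bwd (A : ℕ → ℕ) : List ℕ × ℕ →. ℕ := fun x =>
  (x.1.head? : Part ℕ).bind fun k => U (A k).unpair.2 (del x.1, x.2)

theorem partrec_fwd {A : ℕ → ℕ} (hA : Computable A) : Partrec (fwd A) := by
  apply Partrec.bind
  · exact Computable.ofOption ((Primrec.list_head?.comp Primrec.fst).to_comp)
  · have h1 : Computable (fun p : (List ℕ × ℕ) × ℕ => (A p.2).unpair.1) :=
      (Computable.fst.comp Computable.unpair).comp (hA.comp Computable.snd)
    have h2 : Computable (fun p : (List ℕ × ℕ) × ℕ => (p.1.1.tail, p.1.2)) :=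
      Computable.pair ((Primrec.list_tail.comp (Primrec.fst.comp Primrec.fst)).to_comp)
        (Computable.snd.comp Computable.fst)
    exact partrec_U.comp (h1.pair h2)

theorem partrec_bwd {A : ℕ → ℕ} (hA : Computable A) : Partrec (bwd A) := by
  apply Partrec.bind
  · exact Computable.ofOption ((Primrec.list_head?.comp Primrec.fst).to_comp)
  · have h1 : Computable (fun p : (List ℕ × ℕ) × ℕ => (A p.2).unpair.2) :=
      (Computable.snd.comp Computable.unpair).comp (hA.comp Computable.snd)
    have h2 : Computable (fun p : (List ℕ × ℕ) × ℕ => (del p.1.1, p.1.2)) :=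
      Computable.pair (comp_del.comp (Computable.fst.comp Computable.fst))
        (Computable.snd.comp Computable.fst)
    exact partrec_U.comp (h1.pair h2)

/-- **Every two sequences `f n ≤ h m` have an intermediate problem.** -/
theorem exists_mid (f h : ℕ → Problem) (H : ∀ n m, WRed (f n) (h m)) :
    ∃ g : Problem, ∀ n m, WRed (f n) g ∧ WRed g (h m) := by
  have H' : ∀ n m, ∃ e : ℕ, ∀ p ∈ (f n).dom, ∃ r, Computes (U e.unpair.1) p r ∧ r ∈ (h m).dom ∧
      ∀ q ∈ (h m).sol r, ∃ s, Computes (U e.unpair.2) (join p q) s ∧ s ∈ (f n).sol p := by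
    intro n m
    obtain ⟨φ, ψ, hφ, hψ, hr⟩ := H n m
    obtain ⟨a, ha⟩ := exists_index hφ
    obtain ⟨b, hb⟩ := exists_index hψ
    refine ⟨Nat.pair a b, ?_⟩
    rw [Nat.unpair_pair]
    have ha' : U a = φ := funext ha
    have hb' : U b = ψ := funext hb
    rw [ha', hb']
    exact hr
  choose e he using H'
  refine ⟨mid f e, fun n m => ⟨?_, ?_⟩⟩
  · -- `f n ≤ g`
    refine ⟨fun x => ((cod e n :: x.1)[x.2]? : Part ℕ), fun x => ((x.1)[2 * x.2 + 1]? : Part ℕ),
      ?_, ?_, ?_⟩
    · apply Computable.ofOption
      exact Computable.list_getElem?.comp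
        (Computable.list_cons.comp (Computable.const _) Computable.fst) Computable.snd
    · apply Computable.ofOption
      refine Computable.list_getElem?.comp Computable.fst ?_
      exact (Primrec.nat_add.comp (Primrec.nat_mul.comp (Primrec.const 2) Primrec.snd)
        (Primrec.const 1)).to_comp
    · intro p hp
      refine ⟨fun i => if i = 0 then cod e n else p (i - 1), ?_, ?_, ?_⟩
      · intro i
        constructor
        · refine ⟨i, ?_⟩
          rw [Part.mem_ofOption]
          cases i with
          | zero => rfl
          | succ i =>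
            show (cod e n :: pre p (i + 1))[i + 1]? = _
            rw [List.getElem?_cons_succ, pre_getElem?, if_pos (by omega)]
            rfl
        · intro m' v hv
          rw [Part.mem_ofOption] at hv
          cases i with
          | zero =>
            have : some (cod e n) = some v := hv
            exact (Option.some_injective _ this).symm
          | succ i =>
            have h1 : (cod e n :: pre p m')[i + 1]? = some v := hv
            rw [List.getElem?_cons_succ, pre_getElem?] at h1
            split at h1
            · exact (Option.some_injective _ h1).symm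
            · exact absurd h1 (by simp)
      · obtain ⟨s, hs⟩ := hp
        exact ⟨s, n, rfl, hs⟩
      · rintro q ⟨n', hn', hq⟩
        have hnn : n = n' := cod_inj e hn'
        subst hnn
        refine ⟨q, ?_, hq⟩
        intro i
        constructor
        · refine ⟨2 * i + 2, ?_⟩
          rw [Part.mem_ofOption, pre_getElem?, if_pos (by omega)]
          show some (join p q (2 * i + 1)) = some (q i)
          unfold join
          rw [if_neg (by omega)]
          congr 2
          omega
        · intro m' v hv
          rw [Part.mem_ofOption, pre_getElem?] at hv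
          split at hv
          · have h1 : join p q (2 * i + 1) = v := Option.some_injective _ hv
            rw [← h1]
            unfold join
            rw [if_neg (by omega)]
            congr 1
            omega
          · exact absurd hv (by simp)
  · -- `g ≤ h m`
    let A := tab m ((List.range m).map fun i => e i m)
    have hA : Computable A := comp_tab _ _
    refine ⟨fwd A, bwd A, partrec_fwd hA, partrec_bwd hA, ?_⟩
    rintro x ⟨s0, n, hx, hs0⟩
    have hAx : A (x 0) = e n m := by
      rw [hx]
      exact tab_cod e n m
    obtain ⟨r, hr1, hr2, hr3⟩ := he n m _ ⟨s0, hs0⟩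
    refine ⟨r, ?_, hr2, ?_⟩
    · intro i
      obtain ⟨⟨m1, hm1⟩, h2⟩ := hr1 i
      constructor
      · refine ⟨m1 + 1, ?_⟩
        unfold fwd
        rw [pre_succ]
        refine Part.mem_bind (a := x 0) (by simp) ?_
        rw [hAx]
        exact hm1
      · intro m' v hv
        cases m' with
        | zero =>
          exfalso
          unfold fwd at hv
          obtain ⟨k, hk, _⟩ := Part.mem_bind_iff.1 hv
          rw [Part.mem_ofOption] at hk
          exact absurd hk (by simp [pre])
        | succ m' =>
          unfold fwd at hv
          rw [pre_succ] at hv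
          obtain ⟨k, hk, hv'⟩ := Part.mem_bind_iff.1 hv
          rw [Part.mem_ofOption] at hk
          have hk' : x 0 = k := Option.some_injective _ hk
          rw [← hk', hAx] at hv'
          exact h2 m' v hv'
    · intro q hq
      obtain ⟨s, hs1, hs2⟩ := hr3 q hq
      refine ⟨s, ?_, n, hx, hs2⟩
      have hj0 : join x q 0 = x 0 := rfl
      intro i
      obtain ⟨⟨m1, hm1⟩, h2⟩ := hs1 i
      constructor
      · refine ⟨m1 + 2, ?_⟩
        unfold bwd
        refine Part.mem_bind (a := x 0) ?_ ?_
        · rw [Part.mem_ofOption, pre_succ]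
          rfl
        · rw [hAx]
          show s i ∈ U (e n m).unpair.2 (del (pre (join x q) (m1 + 2)), i)
          rw [del_pre]
          exact hm1
      · intro m' v hv
        unfold bwd at hv
        obtain ⟨k, hk, hv'⟩ := Part.mem_bind_iff.1 hv
        rw [Part.mem_ofOption] at hk
        cases m' with
        | zero => exact absurd hk (by simp [pre])
        | succ m' =>
          have hk' : x 0 = k := by
            rw [pre_succ] at hk
            exact Option.some_injective _ hk
          rw [← hk', hAx] at hv'
          have hv2 : v ∈ U (e n m).unpair.2 (del (pre (join x q) (m' + 1)), i) := hv'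
          rw [del_pre] at hv2
          exact h2 _ v hv2

end Pool.Agent.Q317.WC
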